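import Pool.Agent.LRL.Fin

set_option autoImplicit false

namespace Pool.Agent.Results.MP_dca6a2_co.ChromaticLinearRange

/-- The local strengthening of Reed's conjecture for all graphs whose chromatic number is at least
`(1/2 - ε) n`, with an absolute constant `ε > 0`. -/
theorem result :
    ∀ (V : Type) [Fintype V] [DecidableEq V] (G : SimpleGraph V) [DecidableRel G.Adj] (k : ℕ),
      (∀ v : V, ∀ s : Finset V, v ∈ s → G.IsClique (s : Set V) →
        s.card + G.degree v + 1 ≤ 2 * k) →
      (∀ j : ℕ, G.Colorable j →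
        10 ^ 31 * (Fintype.card V - 2 * j) ≤ Fintype.card V ∨
          10 ^ 10 * (Fintype.card V - 2 * j) ^ 2 ≤ Fintype.card V) →
      G.Colorable k := by
  intro V _ _ G _ k h hc
  exact Pool.Agent.LRL.FIN3 G k h (Or.inl hc)

end Pool.Agent.Results.MP_dca6a2_co.ChromaticLinearRange
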