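import Pool.Agent.Helper74.LR.JOIN

set_option autoImplicit false

namespace Pool.Agent.Results.MP_dca6a2_co.DisconnectedComplement

/-- The local strengthening of Reed's conjecture for graphs whose complement is not connected. -/
theorem result :
    ∀ (V : Type) [Fintype V] [DecidableEq V] (G : SimpleGraph V) [DecidableRel G.Adj] (k : ℕ),
      (∀ v : V, ∀ s : Finset V, v ∈ s → G.IsClique (s : Set V) →
        s.card + G.degree v + 1 ≤ 2 * k) →
      ¬ Gᶜ.Preconnected →
      G.Colorable k := by
  intro V _ _ G _ k h hc
  refine Pool.Agent.Helper74.LR.JOIN G k (fun v s hv hs => ?_) hc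
  have h1 := h v s hv hs
  have h2 : Pool.Agent.Helper74.LR.deg G v = G.degree v := by
    unfold Pool.Agent.Helper74.LR.deg
    rw [← Nat.card_coe_set_eq, Nat.card_eq_fintype_card, SimpleGraph.card_neighborSet_eq_degree]
  omega

end Pool.Agent.Results.MP_dca6a2_co.DisconnectedComplement
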